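import Pool.Agent.Helper57.SS.Goals

/-!
# Packet SS-LOC: translations by small reals
-/

set_option autoImplicit false

namespace Pool.Agent.Helper4.SS

open MeasureTheory ProbabilityTheory Filter Topology Pool.Agent.Helper57.SS

theorem gLOC : Pool.Agent.Helper57.SS.G_LOC := by
  intro hSHB ν _ ε η hε0 hε hη h3 h4
  have s0 : ∀ δ : ℝ, 0 ≤ δ → (0 : Ci) ∈ Sh ν δ := fun δ hδ => (hSHB ν δ δ).1 hδ
  have sneg : ∀ (δ : ℝ) (d : Ci), d ∈ Sh ν δ → -d ∈ Sh ν δ := fun δ => (hSHB ν δ δ).2.1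
  have sadd : ∀ (δ δ' : ℝ) (d d' : Ci), d ∈ Sh ν δ → d' ∈ Sh ν δ' → d + d' ∈ Sh ν (δ + δ') :=
    fun δ δ' => (hSHB ν δ δ').2.2.1
  have smono : ∀ δ δ' : ℝ, δ ≤ δ' → Sh ν δ ⊆ Sh ν δ' := fun δ δ' => (hSHB ν δ δ').2.2.2.1
  have scl : ∀ δ : ℝ, IsClosed (Sh ν δ) := fun δ => (hSHB ν δ δ).2.2.2.2.2
  have hpos : ∀ x : ℝ, 0 < x → x ≤ η → (x : Ci) ∈ Sh ν (8 * ε) := by
    intro x hx hxη
    have happ : ∀ n : ℕ, ∃ y : ℝ, |x - y| ≤ 1 / ((n : ℝ) + 1) ∧ (y : Ci) ∈ Sh ν (8 * ε) := by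
      intro n
      have hn : (0 : ℝ) < 1 / ((n : ℝ) + 1) := by positivity
      obtain ⟨e, he0, he1, he2⟩ := h4 (1 / ((n : ℝ) + 1)) hn
      have hind : ∀ j : ℕ, (j : ℝ) * e ≤ x → (((j : ℝ) * e : ℝ) : Ci) ∈ Sh ν (8 * ε) := by
        intro j
        induction j with
        | zero =>
          intro _
          simpa using s0 (8 * ε) (by linarith)
        | succ j ih =>
          intro hj
          have hj' : ((j : ℝ) + 1) * e ≤ x := by push_cast at hj; exact hj
          have h5 : (j : ℝ) * e ≤ x := by nlinarith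
          have h6 := ih h5
          have h7 := sadd _ _ _ _ h6 (smono (2 * ε) (8 * ε) (by linarith) he2)
          have h8 : (((((j + 1 : ℕ) : ℝ)) * e : ℝ) : Ci) = (((j : ℝ) * e : ℝ) : Ci) + (e : Ci) := by
            rw [← AddCircle.coe_add]
            congr 1
            push_cast
            ring
          rw [← h8] at h7
          refine h3 _ ?_ (smono _ _ (by linarith) h7)
          rw [abs_of_nonneg (by positivity)]
          linarith
      refine ⟨(⌊x / e⌋₊ : ℝ) * e, ?_, hind _ ?_⟩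
      · have h5 : (⌊x / e⌋₊ : ℝ) ≤ x / e := Nat.floor_le (by positivity)
        have h6 : x / e < (⌊x / e⌋₊ : ℝ) + 1 := Nat.lt_floor_add_one _
        rw [le_div_iff₀ he0] at h5
        rw [div_lt_iff₀ he0] at h6
        rw [abs_of_nonneg (by linarith)]
        linarith
      · have h5 : (⌊x / e⌋₊ : ℝ) ≤ x / e := Nat.floor_le (by positivity)
        rwa [le_div_iff₀ he0] at h5
    choose y hy1 hy2 using happ
    have hlim : Tendsto y atTop (𝓝 x) := by
      rw [tendsto_iff_norm_sub_tendsto_zero]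
      refine squeeze_zero (fun n => norm_nonneg _) (fun n => ?_)
        tendsto_one_div_add_atTop_nhds_zero_nat
      rw [Real.norm_eq_abs, abs_sub_comm]
      exact hy1 n
    have hlim2 : Tendsto (fun n => ((y n : ℝ) : Ci)) atTop (𝓝 (x : Ci)) :=
      ((AddCircle.continuous_mk' (1 : ℝ)).tendsto x).comp hlim
    exact (scl _).mem_of_tendsto hlim2 (Eventually.of_forall hy2)
  intro x hx
  have hsub : Sh ν (8 * ε) ⊆ Sh ν (1 / 4) := smono _ _ (by linarith)
  rcases lt_trichotomy x 0 with h | h | h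
  · have h5 := hpos (-x) (by linarith) (by rw [abs_of_neg h] at hx; exact hx)
    have h6 := sneg _ _ h5
    rw [AddCircle.coe_neg, neg_neg] at h6
    exact hsub h6
  · subst h
    simpa using s0 (1 / 4) (by norm_num)
  · exact hsub (hpos x h (by rwa [abs_of_pos h] at hx))

end Pool.Agent.Helper4.SS
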