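import Pool.Agent.Helper57.SS.Goals

/-!
# Packet SS-WSY: equidistribution of pairs is symmetric
-/

set_option autoImplicit false

namespace Pool.Agent.Helper4.SS

open MeasureTheory ProbabilityTheory Filter Topology Pool.Agent.Helper57.SS

theorem gWSY : Pool.Agent.Helper57.SS.G_WSY := by
  intro a b h z hz
  have h1 := h (z.2, z.1) (by
    intro h2
    apply hz
    rw [Prod.ext_iff] at h2 ⊢
    exact ⟨h2.2, h2.1⟩)
  refine h1.congr fun N => ?_
  congr 1
  refine Finset.sum_congr rfl fun k _ => ?_
  unfold e2
  exact mul_comm _ _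

end Pool.Agent.Helper4.SS
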